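import Pool.Agent.H.MP_9703cd_gt.Main

namespace Pool.Agent.Results.MP_9703cd_gt.No

open Set
open scoped ContDiff
open Pool.Agent.H.MP_9703cd_gt

theorem result : ∃ (T : ℝ × ℝ → ℝ) (U : Set (ℝ × ℝ)) (p : ℝ × ℝ), IsContTNorm T ∧ IsOpen U ∧
    U ⊆ Ioo 0 1 ×ˢ Ioo 0 1 ∧ ContDiffOn ℝ ∞ T U ∧ p ∈ U ∧ ¬ Umbilic T p ∧
    ¬ IsothermalNear T U p :=
  main

end Pool.Agent.Results.MP_9703cd_gt.No
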